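import Pool.Agent.MWGR.StmtsF

set_option autoImplicit false

/-!
# Row AEX of squad MWGR (MP_23468a_al): the arithmetic of the edges `Ec n g T`
-/

namespace Pool.Agent.MWGR.H50

open Pool.Agent.Helper14_MV Pool.Agent.Helper2_MV Pool.Agent.MVO Pool.Agent.MWL Pool.Agent.MWS
  Pool.Agent.MWH

theorem mem_alt {k : ℕ} (hk : 3 ≤ k) : 1 ∈ alt k ∧ 2 ∈ alt k ∧ 0 ∉ alt k := by
  unfold alt
  refine ⟨?_, ?_, ?_⟩
  · exact List.mem_flatMap.2 ⟨0, List.mem_range.2 (by omega), by simp⟩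
  · exact List.mem_flatMap.2 ⟨1, List.mem_range.2 (by omega), by simp⟩
  · intro h
    obtain ⟨j, -, hj⟩ := List.mem_flatMap.1 h
    simp only [List.mem_cons, List.not_mem_nil, or_false] at hj
    omega

theorem mem_T {T : List ℕ} (hT : T = [3, 1, 2] ∨ ∃ k, 3 ≤ k ∧ T = alt k) :
    1 ∈ T ∧ 2 ∈ T ∧ 0 ∉ T := by
  rcases hT with rfl | ⟨k, hk, rfl⟩
  · refine ⟨by simp, by simp, by simp⟩
  · exact mem_alt hk

theorem aex (h1 : MnbStmt) (h2 : DsgStmt) (h3 : EclStmt) (h4 : ArpStmt) (h5 : HllStmt) :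
    AexStmt := by
  intro n β hreg T hT g hg
  by_cases hall : ∀ θ : FIC, β ≤ θ → Ec n g T (RR θ)
  · exact Or.inl hall
  right
  have hex : ∃ θ : FIC, β ≤ θ ∧ ¬ Ec n g T (RR θ) := by
    by_contra hc
    apply hall
    intro θ hθ
    by_contra hne
    exact hc ⟨θ, hθ, hne⟩
  obtain ⟨θ0, hθ0, hn0⟩ := hex
  have hn : 1 ≤ n := hreg.pos
  have hg1 : 1 ≤ g := Nat.pos_of_dvd_of_pos hg hn
  obtain ⟨T1, T2, T0⟩ := mem_T hT
  obtain ⟨M, hM1, hM2⟩ := h4 n g hn hg1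
    (fun p => ¬ Dm n (n / p ^ (n.factorization p)) (RR β))
  have key : ∀ θ : FIC, β ≤ θ → ¬ Ec n g T (RR θ) →
      ∃ m, 1 ≤ m ∧ m ∣ n ∧ (∀ d, Dm n d (RR θ) ↔ m ∣ d) ∧ M ∣ m := by
    intro θ hθ hne
    obtain ⟨m, hm1, hmn, hmd⟩ := h2 n θ ((h1 n β θ hθ).1 hreg.toBG)
    exact ⟨m, hm1, hmn, hmd, hM1 m hmn (fun p hp hpn hP =>
      h5 n β θ hreg hθ T hT g m hm1 hmn hmd hne p hp hpn hP)⟩
  obtain ⟨m0, -, hm0n, -, hM0⟩ := key θ0 hθ0 hn0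
  refine ⟨M, hM0.trans hm0n, fun θ hθ hne => ?_⟩
  obtain ⟨m, hm1, hmn, hmd, hMm⟩ := key θ hθ hne
  refine ⟨fun d hd => hMm.trans ((hmd d).1 hd), fun c hc hEc => ?_⟩
  apply hne
  refine h3 n θ ((h1 n β θ hθ).1 hreg.toBG) T T1 T2 T0 m c g hm1 ((hmd m).2 dvd_rfl) ?_ hEc
  refine hM2 c m hmn ?_ hc
  intro p hp hpn hnP hpm
  have hD : Dm n (n / p ^ (n.factorization p)) (RR β) := not_not.1 hnP
  have hD' : Dm n (n / p ^ (n.factorization p)) (RR θ) := hθ _ _ hD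
  have hdv : m ∣ n / p ^ (n.factorization p) := (hmd _).1 hD'
  exact Nat.not_dvd_ordCompl hp (by omega) (hpm.trans hdv)

end Pool.Agent.MWGR.H50
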