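import Pool.Agent.MWGR.StmtsC

set_option autoImplicit false

/-!
# Row KAD of squad MWGR (MP_23468a_al): `Ka` and its consequences
-/

namespace Pool.Agent.MWGR.H50

open Pool.Agent.Helper14_MV Pool.Agent.Helper2_MV Pool.Agent.MVO Pool.Agent.MWL Pool.Agent.MWS
  Pool.Agent.MWH

theorem sub_split2 {a b : ℕ} {s : List ℕ} (h : [a, b].Sublist s) :
    ∃ s1 s2 s3 : List ℕ, s = s1 ++ a :: (s2 ++ b :: s3) := by
  obtain ⟨r1, r2, e1, h1, h2⟩ := List.cons_sublist_iff.1 h
  obtain ⟨r3, r4, e2, h3, -⟩ := List.cons_sublist_iff.1 h2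
  obtain ⟨p1, p2, e3⟩ := List.append_of_mem h1
  obtain ⟨q1, q2, e4⟩ := List.append_of_mem h3
  exact ⟨p1, p2 ++ q1, q2 ++ r4, by rw [e1, e2, e3, e4]; simp⟩

theorem ka_use {η : FIC} (h : Ka (RR η)) (p r s t : List ℕ) (a b : ℕ) :
    RR η (p ++ (a :: b :: (r ++ a :: (s ++ b :: t)))) (p ++ (b :: a :: (r ++ a :: (s ++ b :: t)))) := by
  have h1 := RR.sub (h := h) (g := fun c => if c = 0 then [a] else if c = 1 then [b] else if c = 2 then r
    else if c = 3 then s else [c])
  have h2 := RR.append (RR.append (RR.refl (β := η) p) h1) (RR.refl (β := η) t)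
  simpa using h2

theorem kad : KadStmt := by
  intro n η hn hka
  refine ⟨?_, ?_⟩
  · intro H pre suf a b hs A D hok
    unfold Wd
    rcases hs with hs | hs
    · obtain ⟨s1, s2, s3, e⟩ := sub_split2 hs
      have h := ka_use hka (pre ++ A) (D ++ s1) s2 s3 a b
      rw [e]
      simpa using h
    · obtain ⟨s1, s2, s3, e⟩ := sub_split2 hs
      have h := (ka_use hka (pre ++ A) (D ++ s1) s2 s3 b a).symm
      rw [e]
      simpa using h
  · unfold Dm
    have h1 := RR.sub (h := hka) (g := fun c => if c = 0 then [0] else if c = 1 then [1] else if c = 2 then []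
      else if c = 3 then X (n - 1) ++ [2] else [c])
    have h2 := RR.append (RR.refl (β := η) (X n)) h1
    obtain ⟨N, rfl⟩ : ∃ N, n = N + 1 := ⟨n - 1, by omega⟩
    have e1 : N + 1 - 1 = N := by omega
    rw [e1] at h2
    have e4 : List.replicate N 0 ++ [0, 2, 1] = 0 :: (List.replicate N 0 ++ [2, 1]) := by
      have e5 : List.replicate N 0 ++ [0, 2, 1] = List.replicate (N + 1) 0 ++ [2, 1] := by
        rw [List.replicate_succ']
        simp
      rw [e5, List.replicate_succ]
      rfl
    have e2 : X (N + 1) ++ [0, 1, 2, 0, 3, 1].flatMap (fun c => if c = 0 then [0] else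
        if c = 1 then [1] else if c = 2 then [] else if c = 3 then X N ++ [2] else [c]) =
        X (N + 1 + 1) ++ 1 :: (X (N + 1) ++ [2, 1]) := by
      simp [X, List.replicate_succ', e4]
    have e3 : X (N + 1) ++ [1, 0, 2, 0, 3, 1].flatMap (fun c => if c = 0 then [0] else
        if c = 1 then [1] else if c = 2 then [] else if c = 3 then X N ++ [2] else [c]) =
        X (N + 1) ++ 1 :: (X (N + 1 + 1) ++ [2, 1]) := by
      simp [X, List.replicate_succ]
    rw [e2, e3] at h2
    exact h2

end Pool.Agent.MWGR.H50
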