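import Pool.Agent.MWGR.StmtsN
import Pool.Agent.MWGR.Mono

set_option autoImplicit false

/-!
# Row TS3 of squad MWGR (MP_23468a_al): exchange with an alternating pattern of length at least 3
-/

namespace Pool.Agent.MWGR.H50

open Pool.Agent.Helper14_MV Pool.Agent.Helper2_MV Pool.Agent.MVO Pool.Agent.MWL Pool.Agent.MWS
  Pool.Agent.MWH

/-! ### families -/

theorem fam_symm {n k : ℕ} {B B' : ℕ → List ℕ} (h : Fam n k B B') : Fam n k B' B where
  ok := h.ok'
  ok' := h.ok
  eq := by
    intro c hc j hj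
    rcases h.eq c hc j hj with h1 | ⟨h1, h2, h3⟩
    · exact Or.inl h1.symm
    · exact Or.inr ⟨h2, h1, h3.symm⟩
  gm := by
    intro c hc l j hlj hj hl hj0
    have e1 := h.eq c hc l (by omega)
    have e2 := h.eq c hc j hj
    have hl' : ty B c l ≠ 0 := by
      rcases e1 with h1 | ⟨h1, -, -⟩
      · rw [h1]; exact hl
      · omega
    have hj' : ty B c j ≠ 0 := by
      rcases e2 with h1 | ⟨h1, -, -⟩
      · rw [h1]; exact hj0
      · omega
    have h2 := h.gm c hc l j hlj hj hl' hj'
    rcases e2 with h1 | ⟨-, h1, -⟩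
    · rw [← h1]; exact h2
    · exact h1

theorem fam_mem {n k : ℕ} {B B' : ℕ → List ℕ} (h : Fam n k B B') {j c : ℕ} (hj : j ≤ k)
    (hc : c ∈ B j) : c ∈ B' j := by
  have hns : NS k c := h.ok.ok j hj c hc
  have h1 : 0 < (B j).count c := List.count_pos_iff.2 hc
  have e := h.eq c hns j hj
  unfold ty at e
  rcases e with e | ⟨-, e, -⟩
  · exact List.count_pos_iff.1 (by omega)
  · exact List.count_pos_iff.1 (by omega)

theorem fam_cnt1 {n k : ℕ} {B B' : ℕ → List ℕ} (h : Fam n k B B') {j c : ℕ} (hj : j ≤ k)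
    (hc : (B j).count c = 1) : (B' j).count c = 1 := by
  have hm : c ∈ B j := List.count_pos_iff.1 (by omega)
  have hns : NS k c := h.ok.ok j hj c hm
  have e := h.eq c hns j hj
  unfold ty at e
  rcases e with e | ⟨e, -, -⟩
  · omega
  · omega

theorem fam_cnt2 {n k : ℕ} {B B' : ℕ → List ℕ} (h : Fam n k B B') {j c : ℕ} (hj : j ≤ k)
    (hc : 2 ≤ (B j).count c) : 2 ≤ (B' j).count c := by
  have hm : c ∈ B j := List.count_pos_iff.1 (by omega)
  have hns : NS k c := h.ok.ok j hj c hm
  have e := h.eq c hns j hj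
  unfold ty at e
  rcases e with e | ⟨-, e, -⟩
  · omega
  · omega

theorem fam_rg {n k : ℕ} {B B' : ℕ → List ℕ} (h : Fam n k B B') {i x a : ℕ}
    (hr : Rg k B i x a) : Rg k B' i x a :=
  fun j j' h1 h2 h3 h4 h5 h6 =>
    hr j j' h1 h2 h3 h4 (fam_mem (fam_symm h) h2 h5) (fam_mem (fam_symm h) h4 h6)

/-! ### the order of two letters -/

theorem takeWhile_split (P Q : List ℕ) (a : ℕ) (h : a ∉ P) :
    (P ++ a :: Q).takeWhile (fun c => decide (c ≠ a)) = P := by
  induction P with
  | nil => simp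
  | cons p P ih =>
    have h1 : p ≠ a := fun e => h (by simp [e])
    have h2 : a ∉ P := fun e => h (by simp [e])
    rw [List.cons_append, List.takeWhile_cons_of_pos (by simpa using h1), ih h2]

theorem cb_split (P Q : List ℕ) (x a : ℕ) (h : a ∉ P) : cb (P ++ a :: Q) x a = P.count x := by
  unfold cb
  rw [takeWhile_split P Q a h]

theorem cb_swap {l : List ℕ} {a b : ℕ} (hab : a ≠ b) (ha : l.count a = 1) (hb : l.count b = 1) :
    (cb l a b = 0 ∧ cb l b a = 1) ∨ (cb l a b = 1 ∧ cb l b a = 0) := by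
  have hma : a ∈ l := List.count_pos_iff.1 (by omega)
  obtain ⟨P, Q, e1, hP⟩ := List.eq_append_cons_of_mem hma
  have c1 : cb l b a = P.count b := by rw [e1]; exact cb_split P Q b a hP
  have hb' := hb
  rw [e1, List.count_append, List.count_cons_of_ne hab] at hb'
  have ha' := ha
  rw [e1, List.count_append, List.count_cons_self] at ha'
  by_cases hbP : b ∈ P
  · obtain ⟨P1, P2, e2, hP1⟩ := List.eq_append_cons_of_mem hbP
    have c2 : cb l a b = P1.count a := by
      rw [e1, e2, List.append_assoc, List.cons_append]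
      exact cb_split P1 _ a b hP1
    have h3 : 0 < P.count b := List.count_pos_iff.2 hbP
    have h4 : P1.count a = 0 := by
      have h5 : P.count a = 0 := List.count_eq_zero_of_not_mem hP
      rw [e2, List.count_append] at h5
      omega
    left
    rw [c1, c2]
    omega
  · have h3 : P.count b = 0 := List.count_eq_zero_of_not_mem hbP
    have hbQ : b ∈ Q := List.count_pos_iff.1 (by omega)
    obtain ⟨Q1, Q2, e2, hQ1⟩ := List.eq_append_cons_of_mem hbQ
    have c2 : cb l a b = (P ++ a :: Q1).count a := by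
      rw [e1, e2]
      have e3 : P ++ a :: (Q1 ++ b :: Q2) = (P ++ a :: Q1) ++ b :: Q2 := by simp
      rw [e3]
      refine cb_split _ _ a b ?_
      intro hm
      rcases List.mem_append.1 hm with h4 | h4
      · exact hbP h4
      · rcases List.mem_cons.1 h4 with h5 | h5
        · exact hab h5.symm
        · exact hQ1 h5
    have h4 : (P ++ a :: Q1).count a = 1 := by
      rw [List.count_append, List.count_cons_self]
      have h5 : Q.count a = 0 := by omega
      rw [e2, List.count_append] at h5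
      omega
    right
    rw [c1, c2]
    omega

/-! ### the alternating tail -/

theorem alt_cons {r : ℕ} (hr : 2 ≤ r) :
    ∃ T' : List ℕ, alt r = 3 :: T' ∧ 0 ∉ T' ∧ 3 ∉ T' ∧ 1 ∈ T' ∧ 2 ∈ T' := by
  obtain ⟨s, rfl⟩ : ∃ s, r = s + 1 := ⟨r - 1, by omega⟩
  refine ⟨1 :: (List.range s).flatMap (fun j => [3 + (j + 1), 1 + (j + 1) % 2]), ?_, ?_, ?_, ?_, ?_⟩
  · unfold alt
    rw [List.range_succ_eq_map, List.flatMap_cons, List.flatMap_map]
    rfl
  · intro h
    rcases List.mem_cons.1 h with h | h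
    · omega
    · obtain ⟨j, -, hj⟩ := List.mem_flatMap.1 h
      simp only [List.mem_cons, List.not_mem_nil, or_false] at hj
      omega
  · intro h
    rcases List.mem_cons.1 h with h | h
    · omega
    · obtain ⟨j, -, hj⟩ := List.mem_flatMap.1 h
      simp only [List.mem_cons, List.not_mem_nil, or_false] at hj
      omega
  · simp
  · refine List.mem_cons.2 (Or.inr (List.mem_flatMap.2 ⟨0, List.mem_range.2 (by omega), ?_⟩))
    simp

/-! ### arithmetic -/

theorem gap_add {n g : ℕ} (hn : 1 ≤ n) (hg : g ∣ n) {l l' : List ℕ} {a b x : ℕ}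
    (h1 : g ∣ cb l x a + (n - 1) * cb l' x a) (h2 : g ∣ cb l x b + (n - 1) * cb l' x b) :
    g ∣ gap n l a b x + gap n l' b a x := by
  obtain ⟨N, rfl⟩ : ∃ N, n = N + 1 := ⟨n - 1, by omega⟩
  have e : gap (N + 1) l a b x + gap (N + 1) l' b a x + (cb l x a + (N + 1 - 1) * cb l' x a) =
      (N + 1) * (4 + cb l x a + cb l' x a) + (cb l x b + (N + 1 - 1) * cb l' x b) := by
    unfold gap
    have e1 : N + 1 - 1 = N := by omega
    rw [e1]
    ring
  have h3 : g ∣ (N + 1) * (4 + cb l x a + cb l' x a) + (cb l x b + (N + 1 - 1) * cb l' x b) :=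
    (hg.mul_right _).add h2
  rw [← e] at h3
  exact (Nat.dvd_add_left h1).1 h3

theorem sum_add_dvd (R : List ℕ) (m G G' : ℕ → ℕ) (g : ℕ) (h : ∀ x ∈ R, g ∣ G x + G' x) :
    g ∣ (R.map (fun x => m x * G x)).sum + (R.map (fun x => m x * G' x)).sum := by
  induction R with
  | nil => simp
  | cons y R ih =>
    have h1 := ih (fun x hx => h x (List.mem_cons_of_mem _ hx))
    have h2 : g ∣ m y * (G y + G' y) := (h y (List.mem_cons_self)).mul_left _
    have e : ((y :: R).map (fun x => m x * G x)).sum + ((y :: R).map (fun x => m x * G' x)).sum =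
        m y * (G y + G' y) +
          ((R.map (fun x => m x * G x)).sum + (R.map (fun x => m x * G' x)).sum) := by
      simp only [List.map_cons, List.sum_cons]
      ring
    rw [e]
    exact h2.add h1

/-! ### sufficiency -/

theorem suffic (h12 : MswStmt) (h13 : FrlStmt) {n : ℕ} {θ : FIC} (hbg : BG n (RR θ))
    (hk : Kaba (RR θ)) {k : ℕ} {B B' : ℕ → List ℕ} (hfam : Fam n k B B') {i a b g0 : ℕ}
    (hi : i ≤ k) {R : List ℕ}
    (hR : ∀ x, x ∈ R ↔ (2 ≤ (B i).count x ∧ Rg k B i x a ∧ Rg k B i x b))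
    (hg : ∀ x ∈ R, g0 ∣ gap n (B i) a b x)
    (hsw : ∀ H pr : List ℕ, a ∉ H → b ∉ H → SWx n θ H pr (suf B i (k - i)) a b g0) :
    MSw n θ k B i a b := by
  intro H pr haH hbH hH
  refine h12 n θ hbg H pr (suf B i (k - i)) a b g0 _ haH hbH (hsw H pr haH hbH) ?_
  intro x hx
  by_cases hxR : x ∈ R
  · right; right
    obtain ⟨e, he⟩ := hg x hxR
    refine ⟨e, ?_⟩
    rw [he, mul_comm]
  · have h2 : 2 ≤ (B i).count x := hH x hx
    by_cases hra : Rg k B i x a
    · have hrb : ¬ Rg k B i x b := fun hrb => hxR ((hR x).2 ⟨h2, hra, hrb⟩)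
      right; left
      exact (h13 n θ hbg hk k B hfam.ok hfam.gm i x b hi (fun e => hbH (e ▸ hx)) hrb H pr hbH).1
    · left
      exact (h13 n θ hbg hk k B hfam.ok hfam.gm i x a hi (fun e => haH (e ▸ hx)) hra H pr haH).1

/-! ### the row -/

theorem ts3 (h1 : NfsStmt) (h2 : NfeStmt) (h3 : NfdStmt) (h4 : AltStmt) (h5 : GcmStmt)
    (h6 : RlsStmt) (_h7 : FesStmt) (h8 : SweStmt) (h9 : SwpStmt) (h10 : VecStmt) (h11 : VerStmt)
    (h12 : MswStmt) (h13 : FrlStmt) (h14 : EcdStmt) (h15 : DmaStmt) (h16 : SqlStmt) :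
    Ts3Stmt := by
  intro n β hreg k B B' hfam i a b hi hab ha hb hcb hcb' hno hrab hrba
  have hn : 1 ≤ n := hreg.pos
  -- blocks with a and b behind i
  have hexa : (∃ j, i < j ∧ j ≤ k ∧ a ∈ B j) ∧ (∃ j, i < j ∧ j ≤ k ∧ b ∈ B j) := by
    unfold Rg at hrab
    push Not at hrab
    obtain ⟨j, j', q1, q2, q3, q4, q5, q6, -⟩ := hrab
    exact ⟨⟨j', q3, q4, q6⟩, ⟨j, q1, q2, q5⟩⟩
  obtain ⟨u, v, r, f, huv, hr2, hrk, hf, hf0, hfu, hfv, hft, hfz⟩ :=
    h4 k i a b B hi hexa.1 hexa.2 hno
  have hr3 : 3 ≤ r := by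
    by_contra hc
    have hr : r = 2 := by omega
    have hrg : Rg k B i u v := by
      intro j j' q1 q2 q3 q4 q5 q6
      have e1 := hfv j q1 q2 q5
      have e2 := hfu j' q3 q4 q6
      have e3 := hf.le j q2
      have e4 := hf.le j' q4
      by_contra hlt
      have e5 := hf.mono j j' (by omega) q4
      omega
    rcases huv with ⟨rfl, rfl⟩ | ⟨rfl, rfl⟩
    · exact hrab hrg
    · exact hrba hrg
  -- the sublist
  have hch : ∀ t, ∃ j, t < r → i < j ∧ j ≤ k ∧ f j = t + 1 ∧ ((t + 1) % 2 = 1 → u ∈ B j) ∧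
      ((t + 1) % 2 = 0 → v ∈ B j) := by
    intro t
    by_cases ht : t < r
    · obtain ⟨j, q1, q2, q3, q4, q5⟩ := hft (t + 1) (by omega) (by omega)
      exact ⟨j, fun _ => ⟨q1, q2, q3, q4, q5⟩⟩
    · exact ⟨0, fun h => absurd h ht⟩
  choose jj hjj using hch
  have hlt : ∀ t, t + 1 < r → jj t < jj (t + 1) := by
    intro t ht
    obtain ⟨q1, q2, q3, -, -⟩ := hjj t (by omega)
    obtain ⟨p1, p2, p3, -, -⟩ := hjj (t + 1) ht
    by_contra hc
    have := hf.mono (jj (t + 1)) (jj t) (by omega) q2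
    omega
  have hmem : ∀ t < r, i < jj t ∧ jj t ≤ k ∧ (if t % 2 = 0 then u else v) ∈ B (jj t) := by
    intro t ht
    obtain ⟨q1, q2, q3, q4, q5⟩ := hjj t ht
    refine ⟨q1, q2, ?_⟩
    by_cases hp : t % 2 = 0
    · rw [if_pos hp]; exact q4 (by omega)
    · rw [if_neg hp]; exact q5 (by omega)
  have hsub : (altl u v r).Sublist (suf B i (k - i)) :=
    h16 k i r B jj (fun t => if t % 2 = 0 then u else v) hi hmem hlt
  have hsub3 : [u, v, u].Sublist (suf B i (k - i)) := by
    have := h16 k i 3 B jj (fun t => if t % 2 = 0 then u else v) hi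
      (fun t ht => hmem t (by omega)) (fun t ht => hlt t (by omega))
    simpa [List.range_succ] using this
  -- rigid letters and their gcd
  obtain ⟨R, hRn, hR⟩ := h6 k i a b B
  obtain ⟨g0, hg0n, -, hg0, m, hm⟩ := h5 n hn R hRn (gap n (B i) a b)
  have hRall : ∀ x ∈ R, 2 ≤ (B i).count x ∧ Rg k B i x a ∧ Rg k B i x b :=
    fun x hx => (hR x).1 hx
  by_cases hF : F1 n (RR β)
  · -- F1
    refine ⟨[Ed.es g0], ?_, ?_⟩
    · intro e he
      rw [List.mem_singleton] at he
      subst he
      exact ⟨hF, hg0n⟩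
    · intro θ hθ _
      have hbg := bg_mono hreg.toBG hθ
      have hF' : F1 n (RR θ) := hθ _ _ hF
      constructor
      · intro hrr e he
        rw [List.mem_singleton] at he
        subst he
        have e1 := h1 n k θ B B' hbg hfam hrr i a b hi hab ha hb hcb hcb' R hRn hRall m
        exact (h14 n θ hbg [1, 2] (by simp) (by simp) (by simp) (by simp)).1 _ _ hm e1
      · intro he
        have hes : Es n g0 (RR θ) := he (Ed.es g0) (by simp)
        refine suffic h12 h13 hbg (kaba_mono hreg.k hθ) hfam hi hR hg0 ?_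
        intro H pr haH hbH
        refine h10 n θ hbg H pr _ a b g0 haH hbH (h9 n g0 θ hbg hes hF' H pr _ a b ?_)
        rcases huv with ⟨rfl, rfl⟩ | ⟨rfl, rfl⟩
        · exact Or.inl hsub3
        · exact Or.inr hsub3
  · -- not F1
    refine ⟨[Ed.ep r g0], ?_, ?_⟩
    · intro e he
      rw [List.mem_singleton] at he
      subst he
      exact ⟨hr3, hF, hg0n⟩
    · intro θ hθ _
      have hbg := bg_mono hreg.toBG hθ
      constructor
      · intro hrr e he
        rw [List.mem_singleton] at he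
        subst he
        show Ec n g0 (alt r) (RR θ)
        obtain ⟨T', eT, T0, T3, T1, T2⟩ := alt_cons hr2
        have hecd := h14 n θ hbg T' T0 T3 T1 T2
        rcases huv with ⟨rfl, rfl⟩ | ⟨rfl, rfl⟩
        · have e1 := h2 n k θ B B' hbg hfam hrr i u v hi hab ha hb hcb hcb' r f hr2 hrk hf hf0
            hfu hfv hft hfz R hRn hRall m
          rw [eT] at e1 ⊢
          exact hecd.1 _ _ hm e1
        · -- u = b, v = a
          have hfam' := fam_symm hfam
          have cs := cb_swap hab ha hb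
          have ha' := fam_cnt1 hfam hi ha
          have hb' := fam_cnt1 hfam hi hb
          have cs' := cb_swap hab ha' hb'
          have c1 : cb (B' i) u v = 1 := by omega
          have c2 : cb (B i) u v = 0 := by omega
          have e1 := h2 n k θ B' B hbg hfam' hrr.symm i u v hi (Ne.symm hab) hb' ha' c1 c2 r f
            hr2 hrk hf hf0
            (fun j q1 q2 q3 => hfu j q1 q2 (fam_mem hfam' q2 q3))
            (fun j q1 q2 q3 => hfv j q1 q2 (fam_mem hfam' q2 q3))
            (fun t q1 q2 => by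
              obtain ⟨j, p1, p2, p3, p4, p5⟩ := hft t q1 q2
              exact ⟨j, p1, p2, p3, fun q => fam_mem hfam p2 (p4 q),
                fun q => fam_mem hfam p2 (p5 q)⟩)
            (fun j q1 q2 => hfz j q1 (fun j' p1 p2 p3 =>
              q2 j' p1 p2 (fam_mem hfam (by omega) p3)))
            R hRn
            (fun x hx => ⟨fam_cnt2 hfam hi (hRall x hx).1, fam_rg hfam (hRall x hx).2.2,
              fam_rg hfam (hRall x hx).2.1⟩) m
          obtain ⟨g, hgn, hgd⟩ := (h15 n θ hbg).1
          have hns : ∀ x ∈ R, x ≠ v ∧ x ≠ u := by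
            intro x hx
            have h7 := (hRall x hx).1
            constructor
            · rintro rfl; omega
            · rintro rfl; omega
          have hdv : ∀ x ∈ R, g ∣ gap n (B i) v u x + gap n (B' i) u v x := by
            intro x hx
            have d1 := h3 n k θ B B' hbg hfam hrr i x v hi (hns x hx).1 (hRall x hx).1 ha
              (hRall x hx).2.1
            have d2 := h3 n k θ B B' hbg hfam hrr i x u hi (hns x hx).2 (hRall x hx).1 hb
              (hRall x hx).2.2
            exact gap_add hn hgn ((hgd _).1 d1) ((hgd _).1 d2)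
          have hsum := sum_add_dvd R m (gap n (B i) v u) (gap n (B' i) u v) g hdv
          generalize hc' : (R.map (fun x => m x * gap n (B' i) u v x)).sum = c' at e1 hsum
          generalize hs' : (R.map (fun x => m x * gap n (B i) v u x)).sum = s at hm hsum
          have hgg : g ∣ g0 + c' := by
            have h7 : s + c' ≡ g0 + c' [MOD g] := (hm.of_dvd hgn).add_right c'
            exact (h7.dvd_iff dvd_rfl).1 hsum
          rw [eT] at e1 ⊢
          have e2 := hecd.2.1 _ (n - 1) e1
          have e3 := hecd.2.2 _ (g0 + c') ((hgd _).2 hgg) e2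
          refine hecd.1 _ _ ?_ e3
          have e4 : c' * (n - 1) + (g0 + c') = g0 + c' * n := by
            obtain ⟨N, rfl⟩ : ∃ N, n = N + 1 := ⟨n - 1, by omega⟩
            have e5 : N + 1 - 1 = N := by omega
            rw [e5]; ring
          rw [e4]
          have h8 : c' * n ≡ 0 [MOD n] := (Nat.modEq_zero_iff_dvd).2 (dvd_mul_left n c')
          simpa using (Nat.ModEq.refl g0).add h8
      · intro he
        have hec : Ec n g0 (alt r) (RR θ) := he (Ed.ep r g0) (by simp)
        refine suffic h12 h13 hbg (kaba_mono hreg.k hθ) hfam hi hR hg0 ?_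
        intro H pr haH hbH
        have hex := h8 n g0 r θ (by omega) hec H pr (suf B i (k - i)) u v hsub
        rcases huv with ⟨rfl, rfl⟩ | ⟨rfl, rfl⟩
        · exact h10 n θ hbg H pr _ _ _ g0 haH hbH hex
        · exact h11 n θ hbg H pr _ _ _ g0 haH hbH hex

end Pool.Agent.MWGR.H50
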